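import Mathlib

/-!
# The descent module `X^{(2,1,1)}` in characteristic two

For every field `F` of characteristic `2` the module `X^q_F` attached to the composition
`q = (2, 1, 1)` of `4` is not self-dual and is not a trivial source module.
-/

set_option autoImplicit false

open Equiv Finset MonoidAlgebra Representation

namespace Pool.Agent.Results.MP_45e6b1_al.NotSelfDual

/-- `Des(σ) ⊆ S(q)`: whenever the value of `σ` at the position `i + 1` (counted from `0`) is
smaller than its value at the position `i`, the number `i + 1` is a partial sum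
`q_1 + ... + q_k` of the composition `q`. -/
def DescentsIn {n : ℕ} (q : Composition n) (σ : Perm (Fin n)) : Prop :=
  ∀ (i : ℕ) (h : i + 1 < n), σ ⟨i + 1, h⟩ < σ ⟨i, Nat.lt_of_succ_lt h⟩ →
    ∃ k : ℕ, q.sizeUpTo k = i + 1

open Classical in
/-- The Solomon descent element `Ξ^q`, the sum of all `σ` in the symmetric group with
`Des(σ) ⊆ S(q)`. -/
noncomputable def descentElement (F : Type*) [Field F] {n : ℕ} (q : Composition n) :
    MonoidAlgebra F (Perm (Fin n)) :=
  ∑ σ ∈ univ.filter (fun σ : Perm (Fin n) => DescentsIn q σ), single σ 1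

/-- The `F`-span of all products `Ξ^q g`, where `g` runs through the symmetric group acting
on `{1, ..., n}` on the right.  In terms of composition of functions, for which
`(g * σ) i = g (σ i)`, the product `σ g` of the right-action convention is `g * σ`, so that the
element `Ξ^q g` is the image of `Ξ^q` under the operator of `g` in the left regular
representation. -/
noncomputable def descentSpan (F : Type*) [Field F] {n : ℕ} (q : Composition n) :
    Submodule F (MonoidAlgebra F (Perm (Fin n))) :=
  Submodule.span F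
    (Set.range fun g : Perm (Fin n) => leftRegular F (Perm (Fin n)) g (descentElement F q))

lemma descentSpan_stable (F : Type*) [Field F] {n : ℕ} (q : Composition n) (g : Perm (Fin n))
    ⦃v : MonoidAlgebra F (Perm (Fin n))⦄ (hv : v ∈ descentSpan F q) :
    leftRegular F (Perm (Fin n)) g v ∈ descentSpan F q := by
  unfold descentSpan at hv ⊢
  induction hv using Submodule.span_induction with
  | mem x hx =>
    obtain ⟨h, rfl⟩ := hx
    refine Submodule.subset_span ⟨g * h, ?_⟩
    simp only [map_mul]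
    rfl
  | zero => rw [map_zero]; exact Submodule.zero_mem _
  | add x y _ _ hx hy => rw [map_add]; exact Submodule.add_mem _ hx hy
  | smul c x _ hx => rw [map_smul]; exact Submodule.smul_mem _ c hx

/-- The module `X^q_F`, as a representation of the symmetric group: the restriction of the
left regular representation to `descentSpan F q`. -/
noncomputable def descentModule (F : Type*) [Field F] {n : ℕ} (q : Composition n) :
    Representation F (Perm (Fin n)) (descentSpan F q) :=
  Subrepresentation.toRepresentation ⟨descentSpan F q, descentSpan_stable F q⟩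

/-- A representation is self-dual if it is isomorphic to its contragredient. -/
def IsSelfDual {F G V : Type*} [Field F] [Group G] [AddCommGroup V] [Module F V]
    (ρ : Representation F G V) : Prop :=
  Nonempty (ρ.Equiv ρ.dual)

/-- A representation is a trivial source module if it is a direct summand of a permutation
module `F[Ω]`, where `Ω` is a finite set on which the group acts. -/
def IsTrivialSource {F G V : Type*} [Field F] [Group G] [AddCommGroup V] [Module F V]
    (ρ : Representation F G V) : Prop :=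
  ∃ (Ω : Type) (_ : Finite Ω) (_ : MulAction G Ω) (i : ρ.IntertwiningMap (ofMulAction F G Ω))
    (r : (ofMulAction F G Ω).IntertwiningMap ρ), ∀ v : V, r (i v) = v

/-- The composition `(2, 1, 1)` of `4`. -/
def q211 : Composition 4 where
  blocks := [2, 1, 1]
  blocks_pos := by intro i hi; simp at hi; omega
  blocks_sum := rfl

lemma descentsIn_iff (σ : Perm (Fin 4)) : DescentsIn q211 σ ↔ σ 0 < σ 1 := by
  constructor
  · intro h
    by_contra hlt
    have hne : σ 0 ≠ σ 1 := fun h0 => by simpa using σ.injective h0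
    have h1 : σ 1 < σ 0 := lt_of_le_of_ne (not_lt.1 hlt) (Ne.symm hne)
    obtain ⟨k, hk⟩ := h 0 (by norm_num) h1
    rcases k with _ | _ | _ | _ | k <;> simp [Composition.sizeUpTo, q211] at hk
  · intro h i hi hlt
    have : i = 0 ∨ i = 1 ∨ i = 2 := by omega
    rcases this with rfl | rfl | rfl
    · exact absurd h (not_lt.2 (le_of_lt hlt))
    · exact ⟨1, by simp [Composition.sizeUpTo, q211]⟩
    · exact ⟨2, by simp [Composition.sizeUpTo, q211]⟩

variable {F : Type*} [Field F]

lemma coeff_leftRegular {G : Type*} [Group G] (g σ : G) (x : MonoidAlgebra F G) :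
    (leftRegular F G g x).coeff σ = x.coeff (g⁻¹ * σ) := by
  induction x using MonoidAlgebra.induction_linear with
  | zero => simp
  | add x y hx hy => rw [map_add, coeff_add, coeff_add, Finsupp.add_apply, Finsupp.add_apply, hx, hy]
  | single h a =>
    classical
    rw [ofMulAction_single]
    simp only [coeff_single, smul_eq_mul]
    rw [Finsupp.single_apply, Finsupp.single_apply]
    exact if_congr eq_inv_mul_iff_mul_eq.symm rfl rfl

lemma coeff_descentElement (σ : Perm (Fin 4)) :
    (descentElement F q211).coeff σ = if σ 0 < σ 1 then 1 else 0 := by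
  classical
  unfold descentElement
  rw [coeff_sum, Finsupp.finsetSum_apply]
  simp only [coeff_single, Finsupp.single_apply]
  rw [Finset.sum_ite_eq']
  simp [descentsIn_iff]

lemma coeff_of_lt {σ : Perm (Fin 4)} (h : σ 0 < σ 1) :
    (descentElement F q211).coeff σ = 1 := by
  rw [coeff_descentElement, if_pos h]

lemma coeff_of_gt {σ : Perm (Fin 4)} (h : σ 1 < σ 0) :
    (descentElement F q211).coeff σ = 0 := by
  rw [coeff_descentElement, if_neg (not_lt.2 h.le)]

lemma lt_or_gt (σ : Perm (Fin 4)) : σ 0 < σ 1 ∨ σ 1 < σ 0 := by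
  refine lt_or_gt_of_ne fun h => ?_
  simpa using σ.injective h

/-- The swap of the first two positions. -/
def t : Perm (Fin 4) := swap 0 1

/-- The swap of the last two positions. -/
def u : Perm (Fin 4) := swap 2 3

lemma mem_prop {x : MonoidAlgebra F (Perm (Fin 4))}
    (hx : x ∈ (descentSpan F q211)) (σ : Perm (Fin 4)) :
    x.coeff (σ * u) = x.coeff σ ∧
      x.coeff σ + x.coeff (σ * t) = x.coeff 1 + x.coeff t := by
  revert σ
  change x ∈ Submodule.span F _ at hx
  induction hx using Submodule.span_induction with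
  | mem x hx =>
    obtain ⟨g, rfl⟩ := hx
    intro σ
    have key : ∀ τ : Perm (Fin 4), (leftRegular F (Perm (Fin 4)) g (descentElement F q211)).coeff τ
        + (leftRegular F (Perm (Fin 4)) g (descentElement F q211)).coeff (τ * t) = 1 := by
      intro τ
      have h0 : (g⁻¹ * (τ * t)) 0 = (g⁻¹ * τ) 1 := by simp [t, Perm.mul_apply]
      have h1 : (g⁻¹ * (τ * t)) 1 = (g⁻¹ * τ) 0 := by simp [t, Perm.mul_apply]
      rw [coeff_leftRegular, coeff_leftRegular]
      rcases lt_or_gt (g⁻¹ * τ) with h | h
      · rw [coeff_of_lt h, coeff_of_gt (by rw [h0, h1]; exact h), add_zero]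
      · rw [coeff_of_gt h, coeff_of_lt (by rw [h0, h1]; exact h), zero_add]
    refine ⟨?_, ?_⟩
    · have h0 : (g⁻¹ * (σ * u)) 0 = (g⁻¹ * σ) 0 := by
        have : u 0 = 0 := by decide
        rw [Perm.mul_apply, Perm.mul_apply, this, Perm.mul_apply]
      have h1 : (g⁻¹ * (σ * u)) 1 = (g⁻¹ * σ) 1 := by
        have : u 1 = 1 := by decide
        rw [Perm.mul_apply, Perm.mul_apply, this, Perm.mul_apply]
      simp only [coeff_leftRegular]
      rcases lt_or_gt (g⁻¹ * σ) with h | h
      · rw [coeff_of_lt h, coeff_of_lt (by rw [h0, h1]; exact h)]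
      · rw [coeff_of_gt h, coeff_of_gt (by rw [h0, h1]; exact h)]
    · rw [key σ]
      have := key 1
      rw [one_mul] at this
      exact this.symm
  | zero => intro σ; simp
  | add x y _ _ hx hy =>
    intro σ
    obtain ⟨h1, h2⟩ := hx σ
    obtain ⟨h3, h4⟩ := hy σ
    simp only [coeff_add, Finsupp.add_apply]
    refine ⟨by rw [h1, h3], ?_⟩
    linear_combination h2 + h4
  | smul c x _ hx =>
    intro σ
    obtain ⟨h1, h2⟩ := hx σ
    simp only [coeff_smul, Finsupp.smul_apply, smul_eq_mul]
    refine ⟨by rw [h1], ?_⟩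
    linear_combination c * h2

/-- The functional `x ↦ x(σ)` on `X^q`. -/
noncomputable def ev (σ : Perm (Fin 4)) :
    Module.Dual F (descentSpan F q211) where
  toFun x := x.1.coeff σ
  map_add' _ _ := rfl
  map_smul' _ _ := rfl

/-- The element `Ξ^q` of `X^q`. -/
noncomputable def xi : (descentSpan F q211) :=
  ⟨descentElement F q211, Submodule.subset_span ⟨1, by simp⟩⟩

lemma rep_coeff (g σ : Perm (Fin 4)) (x : (descentSpan F q211)) :
    ((descentModule F q211) g x).1.coeff σ = x.1.coeff (g⁻¹ * σ) :=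
  coeff_leftRegular g σ x.1

theorem not_selfDual [CharP F 2] :
    ¬ IsSelfDual (descentModule F q211) := by
  rintro ⟨φ⟩
  set ρ := (descentModule F q211) with hρ
  have hφ : ∀ g x, φ (ρ g x) = ρ.dual g (φ x) := fun g x =>
    IntertwiningMap.isIntertwining ρ ρ.dual φ.toIntertwiningMap g x
  have hsurj : Function.Surjective φ := φ.toLinearEquiv.surjective
  have hinj : Function.Injective φ := φ.toLinearEquiv.injective
  obtain ⟨w, hw⟩ := hsurj (ev 1)
  -- the functional `c = ev 1 + ev t` is the image of `x0 = w + t w`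
  have hc : φ (w + ρ t w) = ev 1 + ev t := by
    rw [map_add, hφ, hw]
    congr 1
    ext x
    simp only [dual_apply, Module.Dual.transpose_apply, LinearMap.comp_apply]
    change ((descentModule F q211) t⁻¹ x).1.coeff 1 = x.1.coeff t
    rw [rep_coeff]
    simp
  -- which is invariant
  have hinv : ∀ g, ρ g (w + ρ t w) = w + ρ t w := by
    intro g
    apply hinj
    rw [hφ, hc]
    ext x
    simp only [dual_apply, Module.Dual.transpose_apply, LinearMap.comp_apply]
    change ((descentModule F q211) g⁻¹ x).1.coeff 1 +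
      ((descentModule F q211) g⁻¹ x).1.coeff t = x.1.coeff 1 + x.1.coeff t
    rw [rep_coeff, rep_coeff, inv_inv, mul_one]
    exact (mem_prop x.2 g).2
  -- so all its coefficients are equal to the one at `r`, which is zero
  let r : Perm (Fin 4) := swap 0 2 * swap 1 3
  have hr : t⁻¹ * r = r * u := by decide
  have hzero : (w + ρ t w).1.coeff r = 0 := by
    have h1 : (w + ρ t w).1.coeff r = w.1.coeff r + (ρ t w).1.coeff r := rfl
    rw [h1, rep_coeff, hr, (mem_prop w.2 r).1]
    exact CharTwo.add_self_eq_zero _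
  have hall : w + ρ t w = 0 := by
    apply Subtype.ext
    ext σ
    have h2 : (ρ (σ * r⁻¹) (w + ρ t w)).1.coeff σ = (w + ρ t w).1.coeff σ := by
      rw [hinv (σ * r⁻¹)]
    rw [rep_coeff] at h2
    have h3 : (σ * r⁻¹)⁻¹ * σ = r := by group
    rw [h3, hzero] at h2
    exact h2.symm
  rw [hall, map_zero] at hc
  have h4 := congrArg (fun f => f xi) hc
  simp only [LinearMap.zero_apply, LinearMap.add_apply] at h4
  change (0 : F) = (descentElement F q211).coeff 1 + (descentElement F q211).coeff t at h4
  rw [coeff_of_lt (by decide), coeff_of_gt (by decide), add_zero] at h4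
  exact zero_ne_one h4

lemma coeff_ofMulAction {G Ω : Type*} [Group G] [MulAction G Ω] (g : G) (ω : Ω)
    (x : MonoidAlgebra F Ω) :
    (ofMulAction F G Ω g x).coeff ω = x.coeff (g⁻¹ • ω) := by
  induction x using MonoidAlgebra.induction_linear with
  | zero => simp
  | add x y hx hy => rw [map_add, coeff_add, coeff_add, Finsupp.add_apply, Finsupp.add_apply, hx, hy]
  | single h a =>
    classical
    rw [ofMulAction_single]
    change (Finsupp.single (g • h) a) ω = (Finsupp.single h a) (g⁻¹ • ω)
    rw [Finsupp.single_apply, Finsupp.single_apply]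
    exact if_congr eq_inv_smul_iff.symm rfl rfl

/-- In a permutation module in characteristic two, if `g ^ 4 = 1` and `g ^ 2 y + y` is fixed by
`g`, then it is a norm from the cyclic group of order four. -/
lemma norm_of_fixed [CharP F 2] {G Ω : Type*} [Group G] [Finite Ω] [MulAction G Ω] (g : G)
    (hg : g ^ 4 = 1) (y : MonoidAlgebra F Ω)
    (hy : ofMulAction F G Ω g (ofMulAction F G Ω (g ^ 2) y + y) =
      ofMulAction F G Ω (g ^ 2) y + y) :
    ∃ z, ofMulAction F G Ω (g ^ 2) y + y = z + ofMulAction F G Ω g z +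
      ofMulAction F G Ω (g ^ 2) z + ofMulAction F G Ω (g ^ 3) z := by
  classical
  have := Fintype.ofFinite Ω
  obtain ⟨e⟩ : Nonempty (Ω ↪ ℕ) := ⟨(Fintype.equivFin Ω).toEmbedding.trans Fin.valEmbedding⟩
  set v := ofMulAction F G Ω (g ^ 2) y + y with hv
  have hinv1 : g⁻¹ = g ^ 3 := by
    rw [inv_eq_iff_mul_eq_one]
    calc g * g ^ 3 = g ^ 4 := by group
      _ = 1 := hg
  have hinv2 : (g ^ 2)⁻¹ = g ^ 2 := by
    rw [inv_eq_iff_mul_eq_one]
    calc g ^ 2 * g ^ 2 = g ^ 4 := by group
      _ = 1 := hg
  have hinv3 : (g ^ 3)⁻¹ = g := by rw [← hinv1, inv_inv]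
  have hvg : ∀ ω, v.coeff (g • ω) = v.coeff ω := by
    intro ω
    conv_lhs => rw [← hy]
    rw [coeff_ofMulAction, inv_smul_smul]
  have hvg2 : ∀ ω, v.coeff (g ^ 2 • ω) = v.coeff ω := by
    intro ω
    rw [pow_two, mul_smul, hvg, hvg]
  have hvg3 : ∀ ω, v.coeff (g ^ 3 • ω) = v.coeff ω := by
    intro ω
    rw [pow_succ, mul_smul, hvg2, hvg]
  have hv0 : ∀ ω, g ^ 2 • ω = ω → v.coeff ω = 0 := by
    intro ω h
    rw [hv, coeff_add, Finsupp.add_apply, coeff_ofMulAction, hinv2, h]
    exact CharTwo.add_self_eq_zero _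
  let zf : Ω → F := fun ω =>
    if e ω < e (g • ω) ∧ e ω < e (g ^ 2 • ω) ∧ e ω < e (g ^ 3 • ω) then v.coeff ω else 0
  refine ⟨ofCoeff (Finsupp.equivFunOnFinite.symm zf), ?_⟩
  have hz : ∀ ω, (ofCoeff (Finsupp.equivFunOnFinite.symm zf) : MonoidAlgebra F Ω).coeff ω
      = zf ω := fun ω => rfl
  ext ω
  simp only [coeff_add, Finsupp.add_apply, coeff_ofMulAction, hinv1, hinv2, hinv3, hz]
  by_cases h2 : g ^ 2 • ω = ω
  · have h0 := hv0 ω h2
    have hz0 : ∀ ω', v.coeff ω' = 0 → zf ω' = 0 := by
      intro ω' h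
      simp only [zf, h, ite_self]
    rw [h0, hz0 _ h0, hz0 _ ((hvg3 ω).trans h0), hz0 _ ((hvg2 ω).trans h0),
      hz0 _ ((hvg ω).trans h0)]
    simp
  · have h1 : g • ω ≠ ω := fun h => h2 (by rw [pow_two, mul_smul, h, h])
    have h3 : g ^ 3 • ω ≠ ω := fun h => by
      rw [← hinv1, inv_smul_eq_iff] at h
      exact h1 h.symm
    have h12 : g • ω ≠ g ^ 2 • ω := fun h => by
      rw [pow_two, mul_smul] at h
      exact h1 (smul_left_cancel g h).symm
    have h13 : g • ω ≠ g ^ 3 • ω := fun h => by
      have : g ^ 3 = g * g ^ 2 := by group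
      rw [this, mul_smul] at h
      exact h2 (smul_left_cancel g h).symm
    have h23 : g ^ 2 • ω ≠ g ^ 3 • ω := fun h => by
      have : g ^ 3 = g ^ 2 * g := by group
      rw [this, mul_smul] at h
      exact h1 (smul_left_cancel _ h).symm
    have e1 := e.injective.ne h1
    have e2 := e.injective.ne h2
    have e3 := e.injective.ne h3
    have e12 := e.injective.ne h12
    have e13 := e.injective.ne h13
    have e23 := e.injective.ne h23
    have p4 : ∀ k : ℕ, g ^ (k + 4) = g ^ k := by intro k; rw [pow_add, hg, mul_one]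
    have q11 : g • g • ω = g ^ 2 • ω := by rw [pow_two, mul_smul]
    have q12 : g ^ 2 • g • ω = g ^ 3 • ω := by rw [← mul_smul, ← pow_succ]
    have q13 : g ^ 3 • g • ω = ω := by rw [← mul_smul, ← pow_succ, hg, one_smul]
    have q21 : g • g ^ 2 • ω = g ^ 3 • ω := by rw [← mul_smul, ← pow_succ']
    have q22 : g ^ 2 • g ^ 2 • ω = ω := by rw [← mul_smul, ← pow_add, hg, one_smul]
    have q23 : g ^ 3 • g ^ 2 • ω = g • ω := by
      rw [← mul_smul, ← pow_add, p4 1, pow_one]
    have q31 : g • g ^ 3 • ω = ω := by rw [← mul_smul, ← pow_succ', hg, one_smul]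
    have q32 : g ^ 2 • g ^ 3 • ω = g • ω := by
      rw [← mul_smul, ← pow_add, p4 1, pow_one]
    have q33 : g ^ 3 • g ^ 3 • ω = g ^ 2 • ω := by
      rw [← mul_smul, ← pow_add, p4 2]
    simp only [zf, q11, q12, q13, q21, q22, q23, q31, q32, q33, hvg, hvg2, hvg3]
    generalize e ω = a at *
    generalize e (g • ω) = b at *
    generalize e (g ^ 2 • ω) = c at *
    generalize e (g ^ 3 • ω) = d at *
    by_cases ca : a < b ∧ a < c ∧ a < d
    · rw [if_pos ca, if_neg (by omega), if_neg (by omega), if_neg (by omega)]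
      simp
    · by_cases cb : d < a ∧ d < b ∧ d < c
      · rw [if_neg ca, if_pos cb, if_neg (by omega), if_neg (by omega)]
        simp
      · by_cases cc : c < d ∧ c < a ∧ c < b
        · rw [if_neg ca, if_neg cb, if_pos cc, if_neg (by omega)]
          simp
        · rw [if_neg ca, if_neg cb, if_neg cc, if_pos (by omega)]
          simp

/-- The cyclic permutation `0 ↦ 1 ↦ 2 ↦ 3 ↦ 0`. -/
def g4 : Perm (Fin 4) := finRotate 4

/-- The transposition of `1` and `2`. -/
def s12 : Perm (Fin 4) := swap 1 2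

lemma g4_pow : g4 ^ 4 = 1 := by decide

theorem not_trivialSource [CharP F 2] :
    ¬ IsTrivialSource (descentModule F q211) := by
  rintro ⟨Ω, _, _, i, r, hri⟩
  let ρ := (descentModule F q211)
  have hri' : ∀ v, r (i v) = v := hri
  have hi : ∀ g x, i (ρ g x) = ofMulAction F _ Ω g (i x) := fun g x =>
    IntertwiningMap.isIntertwining _ _ i g x
  have hr : ∀ g x, r (ofMulAction F _ Ω g x) = ρ g (r x) := fun g x =>
    IntertwiningMap.isIntertwining _ _ r g x
  let y := ρ s12 xi
  have hyc : ∀ σ : Perm (Fin 4), y.1.coeff σ = if s12 (σ 0) < s12 (σ 1) then 1 else 0 := by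
    intro σ
    change (ρ s12 xi).1.coeff σ = _
    rw [rep_coeff]
    change (descentElement F q211).coeff (s12⁻¹ * σ) = _
    have : s12⁻¹ = s12 := by decide
    rw [this, coeff_descentElement]
    rfl
  have huc : ∀ σ : Perm (Fin 4), (ρ (g4 ^ 2) y + y).1.coeff σ =
      if σ 1 = σ 0 + 2 then 1 else 0 := by
    intro σ
    have h1 : (ρ (g4 ^ 2) y + y).1.coeff σ = (ρ (g4 ^ 2) y).1.coeff σ + y.1.coeff σ := rfl
    have h2 : ∀ σ : Perm (Fin 4), ((g4 ^ 2)⁻¹ * σ) 0 = σ 0 + 2 ∧
        ((g4 ^ 2)⁻¹ * σ) 1 = σ 1 + 2 := by decide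
    rw [h1, rep_coeff, hyc, hyc, (h2 σ).1, (h2 σ).2]
    have hne : σ 0 ≠ σ 1 := fun h => by simpa using σ.injective h
    revert hne
    generalize σ 0 = a
    generalize σ 1 = b
    have two : (1 : F) + 1 = 0 := CharTwo.add_self_eq_zero 1
    fin_cases a <;> fin_cases b <;> intro hne <;>
      first
        | exact absurd rfl hne
        | simp [s12, Equiv.swap_apply_def, two]
  have hfix : ρ g4 (ρ (g4 ^ 2) y + y) = ρ (g4 ^ 2) y + y := by
    apply Subtype.ext
    ext σ
    rw [rep_coeff, huc, huc]
    have h2 : ∀ σ : Perm (Fin 4), ((g4⁻¹ * σ) 1 = (g4⁻¹ * σ) 0 + 2) ↔ (σ 1 = σ 0 + 2) := by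
      decide
    exact if_congr (h2 σ) rfl rfl
  obtain ⟨z, hz⟩ := norm_of_fixed (F := F) g4 g4_pow (i y) (by
    rw [← hi, ← map_add, ← hi, hfix])
  have hu : ρ (g4 ^ 2) y + y = r z + ρ g4 (r z) + ρ (g4 ^ 2) (r z) + ρ (g4 ^ 3) (r z) := by
    rw [← hr, ← hr, ← hr, ← map_add, ← map_add, ← map_add, ← hz, ← hi, ← map_add, hri']
  have h5 := huc s12
  rw [if_pos (by decide), hu] at h5
  have h6 : (r z + ρ g4 (r z) + ρ (g4 ^ 2) (r z) + ρ (g4 ^ 3) (r z)).1.coeff s12 =
      (r z).1.coeff s12 + (ρ g4 (r z)).1.coeff s12 + (ρ (g4 ^ 2) (r z)).1.coeff s12 +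
        (ρ (g4 ^ 3) (r z)).1.coeff s12 := rfl
  rw [h6, rep_coeff, rep_coeff, rep_coeff] at h5
  have e2 : (g4 ^ 2)⁻¹ * s12 = s12 * t * u := by decide
  have e3 : (g4 ^ 3)⁻¹ * s12 = g4⁻¹ * s12 * t * u := by decide
  rw [e2, e3, (mem_prop (r z).2 _).1, (mem_prop (r z).2 _).1] at h5
  have h7 := (mem_prop (r z).2 s12).2
  have h8 := (mem_prop (r z).2 (g4⁻¹ * s12)).2
  have two : ∀ a : F, a + a = 0 := fun a => CharTwo.add_self_eq_zero a
  have h9 : (1 : F) = ((r z).1.coeff 1 + (r z).1.coeff t) + ((r z).1.coeff 1 + (r z).1.coeff t) := by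
    rw [← h5]
    nth_rewrite 1 [← h7]
    rw [← h8]
    ring
  rw [two] at h9
  exact one_ne_zero h9

/-- **Q1 of MP_45e6b1_al, both parts, in the negative.**  For `q = (2, 1, 1)` and every field `F`
of characteristic `2`, the module `X^q_F` is not self-dual and is not a trivial source module. -/
theorem result : ∃ q : Composition 4, q.blocks = [2, 1, 1] ∧
    ∀ (F : Type*) [Field F] [CharP F 2],
      ¬ IsSelfDual (descentModule F q) ∧ ¬ IsTrivialSource (descentModule F q) :=
  ⟨q211, rfl, fun _ _ _ => ⟨not_selfDual, not_trivialSource⟩⟩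

end Pool.Agent.Results.MP_45e6b1_al.NotSelfDual
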